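import Mathlib

/-! Project NM (MP_7e34bc_co, Q2, middle range), part B: 3 <= p elements of the smaller sign class, p fixed,
n large.  Statements of the rows, each with a complete proof in its docstring.
`X` = the positive weights, `y` = the absolute values of the negative weights, `n = p + q`. -/

namespace Pool.Agent.NM

open Finset Nat

/-- sum of the first `j` weights in the order `τ` -/
noncomputable def Yp {q : ℕ} (y : Fin q → ℝ) (τ : Equiv.Perm (Fin q)) (j : ℕ) : ℝ :=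
  ∑ i ∈ univ.filter (fun i : Fin q => i.val < j), y (τ i)

open Classical in
/-- the zero sums of size at most `k` -/
noncomputable def ZS {p q : ℕ} (X : Fin p → ℝ) (y : Fin q → ℝ) (k : ℕ) :
    Finset (Finset (Fin p) × Finset (Fin q)) :=
  univ.filter (fun c => c.1.Nonempty ∧ c.1.card + c.2.card ≤ k ∧ ∑ i ∈ c.1, X i = ∑ j ∈ c.2, y j)

open Classical in
/-- the weight of the order `τ` -/
noncomputable def Wt {p q : ℕ} (X : Fin p → ℝ) (y : Fin q → ℝ) (k : ℕ) (τ : Equiv.Perm (Fin q)) : ℕ :=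
  ∑ I ∈ univ.filter (fun I : Finset (Fin p) => I.Nonempty), ∑ j ∈ range (q + 1),
    if I.card + j ≤ k ∧ Yp y τ j = ∑ i ∈ I, X i then q.choose j else 0

open Classical in
/-- DCT. Each `J` with `j` elements is the image of the first `j` indices for `j! (q-j)!` orders `τ`
(choose the bijection on the first `j` indices and on the others), and `C(q,j) j! (q-j)! = q!`.
(`Numbering.card_prefixed` of Mathlib may be used, see helper55/NK/Base.lean.) -/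
def DCT_stmt : Prop := ∀ (q : ℕ) (y : Fin q → ℝ) (c : ℝ) (j : ℕ), j ≤ q →
  (univ.filter (fun J : Finset (Fin q) => J.card = j ∧ ∑ i ∈ J, y i = c)).card * q ! =
    q.choose j * (univ.filter (fun τ : Equiv.Perm (Fin q) => Yp y τ j = c)).card

/-- CNT. `|ZS| q! = sum of the weights`. Sort `ZS` by `I = c.1` and `j = |c.2|` and use DCT; exchange the sums. -/
def CNT_stmt : Prop := ∀ (p q k : ℕ) (X : Fin p → ℝ) (y : Fin q → ℝ),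
  (ZS X y k).card * q ! = ∑ τ : Equiv.Perm (Fin q), Wt X y k τ

open Classical in
/-- BAD. `Y_k - Y_(k-m)` is the sum of the `y (τ i)`, `k-m <= i < k`. For `i, i' < k` the exchange of the
positions `i, i'` is a bijection of the orders which keeps `Y_k`, so `sum_τ y (τ i) / Y_k(τ)` does not depend on
`i < k` and is `q!/k`. So `sum_τ (Y_k - Y_(k-m))/Y_k = m q!/k`; every `τ` counted on the left contributes at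
least `1/K` (and all terms are `>= 0`), hence `#/K <= m q!/k`. (`K = 0`: `Y_k > 0`, nothing is counted.) -/
def BAD_stmt : Prop := ∀ (q k m K : ℕ) (y : Fin q → ℝ), (∀ i, 0 < y i) → 1 ≤ k → k ≤ q → m ≤ k →
  (univ.filter (fun τ : Equiv.Perm (Fin q) => Yp y τ k ≤ K * (Yp y τ k - Yp y τ (k - m)))).card * k ≤
    K * m * q !

/-- TRV. For fixed `I` at most one `j` counts (`Yp y τ` is strictly increasing in `j <= q`), `C(q,j) <= C(q,k)`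
for `j <= k <= q/2`, and there are at most `2^p` sets `I`. -/
def TRV_stmt : Prop := ∀ (p q k : ℕ) (X : Fin p → ℝ) (y : Fin q → ℝ) (τ : Equiv.Perm (Fin q)),
  (∀ i, 0 < y i) → 2 * k ≤ q → Wt X y k τ ≤ 2 ^ p * q.choose k

/-- PMX. `P_b(a) = C(b,a) ρ^a (1-ρ)^(b-a)`. Induction on `b >= 3`: `P_(b+1)(a) = (1-ρ) P_b(a) + ρ P_b(a-1)`
(Pascal); for `a >= 2` both terms are `<= 3ρ(1-ρ)^2`; for `a = 1` use `P_b(0) = (1-ρ)^b <= b ρ (1-ρ)^(b-1) = P_b(1)`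
(`1-ρ <= 2/3 <= 1 <= bρ`). Base `b = 3`: `3ρ^2(1-ρ) <= 3ρ(1-ρ)^2` and `ρ^3 <= 3ρ(1-ρ)^2` as
`ρ <= 1/2 <= 1-ρ`. -/
def PMX_stmt : Prop := ∀ (b a : ℕ) (ρ : ℝ), 3 ≤ b → 1 ≤ a → a ≤ b → 1 / 3 ≤ ρ → ρ ≤ 1 / 2 →
  (b.choose a : ℝ) * (ρ ^ a * (1 - ρ) ^ (b - a)) ≤ 3 * ρ * (1 - ρ) ^ 2

/-- LYB. LYM: `sum 1/C(b,|A|) <= 1` over the antichain (`Finset.sum_card_slice_div_choose_le_one` or its
other form), and `ρ^|A| (1-ρ)^(b-|A|) <= 3ρ(1-ρ)^2 / C(b,|A|)` by PMX. -/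
def LYB_stmt : Prop := ∀ (α : Type) [Fintype α] [DecidableEq α] (𝒜 : Finset (Finset α)) (ρ : ℝ),
  IsAntichain (· ⊆ ·) (𝒜 : Set (Finset α)) → (∀ A ∈ 𝒜, A.Nonempty) → 3 ≤ Fintype.card α →
  1 / 3 ≤ ρ → ρ ≤ 1 / 2 →
  ∑ A ∈ 𝒜, ρ ^ A.card * (1 - ρ) ^ (Fintype.card α - A.card) ≤ 3 * ρ * (1 - ρ) ^ 2

/-- the hypotheses on the family of hits: `S` the small elements, `H` the hits, `d` the defects -/
def Hyp (p : ℕ) (S : Finset (Fin p)) (H : Finset (Finset (Fin p))) (d : Finset (Fin p) → ℕ) : Prop :=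
  (∀ I ∈ H, ¬ I ⊆ S) ∧ (∀ I₁ ∈ H, ∀ I₂ ∈ H, I₁ ∩ S = I₂ ∩ S → I₁ ⊆ I₂ → I₁ = I₂) ∧
  (∀ I₁ ∈ H, ∀ I₂ ∈ H, I₁ ⊂ I₂ → d I₂ + 2 ≤ d I₁)

/-- GG3. At least three big elements. `R^(d I) <= 1`. For fixed `T ⊆ S` the sets `I \ S` (`I ∈ H`, `I ∩ S = T`) are
an antichain of nonempty subsets of the big elements (type `{e // e ∉ S}`), so by LYB
`sum_{I ∩ S = T} ρ^|I| (1-ρ)^(p-|I|) <= ρ^|T| (1-ρ)^(|S|-|T|) 3ρ(1-ρ)^2`, and `sum_T ρ^|T| (1-ρ)^(|S|-|T|) = 1`.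
`3ρ(1-ρ)^2 = 1.5 (1-ρ) 2ρ(1-ρ) <= (1 - 1.5 ε) 2ρ(1-ρ)`. -/
def GG3_stmt : Prop := ∀ (p : ℕ) (S : Finset (Fin p)) (H : Finset (Finset (Fin p)))
  (d : Finset (Fin p) → ℕ) (ε ρ R : ℝ), Hyp p S H d → 0 < ε → 1 / 3 + ε ≤ ρ → ρ ≤ 1 / 2 - ε →
  0 ≤ R → R ≤ 1 - 2 * ε → 3 ≤ (univ \ S).card →
  ∑ I ∈ H, ρ ^ I.card * (1 - ρ) ^ (p - I.card) * R ^ d I ≤ (1 - ε) * (2 * ρ * (1 - ρ))

/-- GG2. At most two big elements, so there is a small element `e ∈ S` (`p >= 3`). Note `ε <= 1/12`.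
For `T ⊆ S \ {e}` and a big part `B` (nonempty by (i)) let `c(T,B) = (1-ρ) R^(d(T ∪ B)) [T ∪ B ∈ H] +
ρ R^(d(T ∪ {e} ∪ B)) [T ∪ {e} ∪ B ∈ H]`. Both in `H`: `d(T ∪ B) >= 2` by (iii), so
`c <= (1-ρ) R^2 + ρ <= 1 - 1.5 ε`; only the first: `c <= 1-ρ`; only the second: `c <= ρ`. The sum is
`sum_T μ(T) sum_B μ(B) c(T,B)` with `sum_T μ(T) = 1`, `μ(B) = ρ^|B| (1-ρ)^(b-|B|)`. So it is enough that
`sum_B μ(B) c(T,B) <= (1-ε) 2ρ(1-ρ)` for every `T`.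
`b = 0`: 0. `b = 1`: `<= ρ (1-ρ+ρ) = ρ <= (1-ε) 2ρ(1-ρ)` as `2(1-ρ) >= 1+2ε`.
`b = 2`, big `{u,v}`: the families `{B : T ∪ B ∈ H}` and `{B : T ∪ {e} ∪ B ∈ H}` are antichains by (ii), so a family
that contains `{u,v}` contains nothing else. `{u,v}` in neither: `<= 2ρ(1-ρ) max(1-ρ, ρ, 1-1.5ε)`. In the first
only: `<= (1-ρ)ρ^2 + ρ 2ρ(1-ρ) = 2ρ(1-ρ) 1.5ρ`. In the second only: `<= ρ ρ^2 + (1-ρ) 2ρ(1-ρ)
= 2ρ(1-ρ) (1-ρ+ρ^2/(2(1-ρ)))`, the last factor is `<= 3/4` on `[1/3,1/2]`. In both: `<= ρ^2`, and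
`ρ^2 <= 2ρ(1-ρ)/2`. All these are `<= (1-ε) 2ρ(1-ρ)`. -/
def GG2_stmt : Prop := ∀ (p : ℕ) (S : Finset (Fin p)) (H : Finset (Finset (Fin p)))
  (d : Finset (Fin p) → ℕ) (ε ρ R : ℝ), Hyp p S H d → 0 < ε → 1 / 3 + ε ≤ ρ → ρ ≤ 1 / 2 - ε →
  0 ≤ R → R ≤ 1 - 2 * ε → 3 ≤ p → (univ \ S).card ≤ 2 →
  ∑ I ∈ H, ρ ^ I.card * (1 - ρ) ^ (p - I.card) * R ^ d I ≤ (1 - ε) * (2 * ρ * (1 - ρ))

/-- BIN. With `n = p + q`, `ρ = k/n`: `C(q,k-i) / C(n,k) = [k]_i [n-k]_(p-i) / [n]_p`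
(falling factorials) `<= ρ^i (1-ρ)^(p-i) n^p/[n]_p`, and `[n]_p >= n^p (1 - p/n)^p >= n^p (1 - p^2/n)`
(Bernoulli). Further `C(q,s-1) <= R C(q,s)` for `1 <= s <= k`, since `C(q,s) s = C(q,s-1)(q-s+1)` and
`s <= k <= R (q-k) <= R (q-s+1)`; used `d` times. -/
def BIN_stmt : Prop := ∀ (p q k i d : ℕ) (R : ℝ), i ≤ p → i + d ≤ k → k ≤ q → p ^ 2 < p + q → 0 ≤ R →
  (k : ℝ) ≤ R * ((q : ℝ) - k) →
  (1 - (p : ℝ) ^ 2 / ((p : ℝ) + q)) * (q.choose (k - i - d) : ℝ) ≤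
    ((k : ℝ) / ((p : ℝ) + q)) ^ i * (1 - (k : ℝ) / ((p : ℝ) + q)) ^ (p - i) * R ^ d *
      ((p + q).choose k : ℝ)

/-- PTB. The bound for a good order. `Y j = Yp y τ j` is strictly increasing (`j <= q`), `n = p+q`, `ρ = k/n`,
`R = 1 - 2ε`. Each nonempty `I` is counted for at most one `j = j_I`; `d_I = k - |I| - j_I`; BIN bounds
`(1-p^2/n) C(q,j_I) <= ρ^|I| (1-ρ)^(p-|I|) R^(d_I) C(n,k)`. The `I` with `d_I > L` contribute at most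
`R^L sum_I ρ^|I| (1-ρ)^(p-|I|) = R^L`. Let `H` = the counted `I` with `d_I <= L`, `S = {e | (p+1) X e < Y k}`.
Good means `Y (k-p-L) > (1 - 1/(p+1)) Y k`; for `I ∈ H` we have `k-p-L <= j_I <= k`, so
`(1 - 1/(p+1)) Y k < X(I) <= Y k`. (i) `I ⊆ S`: `X(I) < p Y k/(p+1)`, or `X(I) <= ` that: contradiction.
(ii) `I₁ ∩ S = I₂ ∩ S`, `I₁ ⊂ I₂`: an element of `I₂ \ I₁` is not in `S`, so `X(I₂) - X(I₁) >= Y k/(p+1)`: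
contradiction. (iii) `I₁ ⊂ I₂`: `X(I₁) < X(I₂)`, so `j_(I₁) < j_(I₂)` and `|I₁| < |I₂|`. GG2 or GG3. -/
def PTB_stmt : Prop := ∀ (p q k L : ℕ) (X : Fin p → ℝ) (y : Fin q → ℝ) (ε : ℝ)
  (τ : Equiv.Perm (Fin q)), (∀ i, 0 < X i) → (∀ i, 0 < y i) → 3 ≤ p → 0 < ε → p + L ≤ k → k ≤ q →
  p ^ 2 < p + q → 1 / 3 + ε ≤ (k : ℝ) / ((p : ℝ) + q) → (k : ℝ) / ((p : ℝ) + q) ≤ 1 / 2 - ε →
  (k : ℝ) ≤ (1 - 2 * ε) * ((q : ℝ) - k) →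
  ¬ (Yp y τ k ≤ ((p + 1 : ℕ) : ℝ) * (Yp y τ k - Yp y τ (k - (p + L)))) →
  (1 - (p : ℝ) ^ 2 / ((p : ℝ) + q)) * (Wt X y k τ : ℝ) ≤
    ((1 - ε) * (2 * ((k : ℝ) / ((p : ℝ) + q)) * (1 - (k : ℝ) / ((p : ℝ) + q))) + (1 - 2 * ε) ^ L) *
      ((p + q).choose k : ℝ)

/-- ASY. Choice of the constants. `n = p+q`, `ρ = k/n` in `[1/3+ε, 1/2-ε]` (so `ε <= 1/12`),
`2 C(n-2,k-1) = 2 k (n-k)/(n(n-1)) C(n,k) >= 2ρ(1-ρ) C(n,k)`, `2ρ(1-ρ) >= 4/9`, `C(q,k) <= C(n,k)`.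
Choose `L` with `(1-2ε)^L <= ε/9`, then `n0` so large that for `n >= n0` (note `k >= n/3`):
`p^2/n <= ε/8` and `2^p (p+1)(p+L)/k <= ε/18`, `p+L <= k`, `2k <= q`, `k <= (1-2ε)(q-k)` (true for large `n`:
`k/(n-k-p) <= (1/2-ε)/(1/2+ε-p/n)`, and `(1/2-ε)/(1/2+ε) < 1-2ε`). Then
`((1-ε) 2ρ(1-ρ) + ε/9)/(1-ε/8) + ε/18 <= 2ρ(1-ρ)` : divide by `2ρ(1-ρ) >= 4/9`:
`(1 - ε + ε/4)/(1-ε/8) + ε/8 <= 1` since `(1 - 3ε/4) <= (1-ε/8)(1-ε/8)`. -/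
def ASY_stmt : Prop := ∀ (ε : ℝ) (p : ℕ), 0 < ε → ∃ L n0 : ℕ, ∀ q k : ℕ, n0 ≤ p + q →
  1 / 3 + ε ≤ (k : ℝ) / ((p : ℝ) + q) → (k : ℝ) / ((p : ℝ) + q) ≤ 1 / 2 - ε →
  p + L ≤ k ∧ 1 ≤ k ∧ 2 * k ≤ q ∧ p ^ 2 < p + q ∧ (k : ℝ) ≤ (1 - 2 * ε) * ((q : ℝ) - k) ∧
  (((1 - ε) * (2 * ((k : ℝ) / ((p : ℝ) + q)) * (1 - (k : ℝ) / ((p : ℝ) + q))) + (1 - 2 * ε) ^ L) /
      (1 - (p : ℝ) ^ 2 / ((p : ℝ) + q))) * ((p + q).choose k : ℝ) +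
    ((p + 1 : ℕ) : ℝ) * (p + L : ℕ) / k * (2 ^ p * (q.choose k : ℝ)) ≤
    2 * ((p + q - 2).choose (k - 1) : ℝ)

/-- BB. Part (B). Proof: CNT: `|ZS| q! = sum_τ Wt τ`; the good orders have `Wt <= (...)/(1-p^2/n) C(n,k)` (PTB),
the bad ones `<= 2^p C(q,k)` (TRV) and there are at most `(p+1)(p+L) q!/k` of them (BAD with `m = p+L`,
`K = p+1`); divide by `q!` and use ASY. -/
def BB_stmt : Prop := ∀ (ε : ℝ) (p : ℕ), 0 < ε → 3 ≤ p → ∃ n0 : ℕ, ∀ q k : ℕ, n0 ≤ p + q →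
  1 / 3 + ε ≤ (k : ℝ) / ((p : ℝ) + q) → (k : ℝ) / ((p : ℝ) + q) ≤ 1 / 2 - ε →
  ∀ (X : Fin p → ℝ) (y : Fin q → ℝ), (∀ i, 0 < X i) → (∀ i, 0 < y i) →
  (ZS X y k).card ≤ 2 * (p + q - 2).choose (k - 1)

end Pool.Agent.NM
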