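import Pool.Agent.helper55.NM.Spec2
import Pool.Agent.helper45.NM.DCT
import Pool.Agent.helper98.NM.CNT
import Pool.Agent.helper16.NM.BAD
import Pool.Agent.helper4.NM.TRV
import Pool.Agent.helper89.NM.PMX
import Pool.Agent.helper58.NM.LYB
import Pool.Agent.helper47.NM.GG3
import Pool.Agent.helper82.NM.GG2
import Pool.Agent.helper95.NM.BIN
import Pool.Agent.helper59.NM.PTB
import Pool.Agent.helper29.NM.ASY
import Pool.Agent.helper63.NM.BB
import Pool.Agent.helper16.NM.BZ
import Pool.Agent.helper40.NM.SYM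

set_option autoImplicit false

namespace Pool.Agent.helper55.NM

open Pool.Agent.NM

theorem BBf : BB_stmt := Pool.Agent.helper63.NM.BB
  (Pool.Agent.helper98.NM.CNT Pool.Agent.helper45.NM.DCT)
  (Pool.Agent.helper59.NM.PTB Pool.Agent.helper82.NM.GG2
    (Pool.Agent.helper47.NM.GG3 (Pool.Agent.helper58.NM.LYB Pool.Agent.helper89.NM.PMX))
    Pool.Agent.helper95.NM.BIN)
  Pool.Agent.helper4.NM.TRV Pool.Agent.helper16.NM.BAD Pool.Agent.helper29.NM.ASY

theorem BZf : BZ_stmt := Pool.Agent.helper16.NM.BZ BBf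

theorem SYMf : SYM_stmt := Pool.Agent.helper40.NM.SYM

end Pool.Agent.helper55.NM
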