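import Pool.Agent.helper55.NM.Spec
import Pool.Agent.helper72.UP.Spec

/-! Project NM, assembly of the parts A (helper37), B, C (helper77). `zer x k` and `sizes n k` are from
Pool/Agent/helper72/UP/Spec.lean. -/

namespace Pool.Agent.NM

open Finset Nat Pool.Agent.helper72.UP

open Classical in
/-- part A (helper37) -/
def PA_stmt : Prop := ∀ ε : ℝ, 0 < ε → ∃ p0 n0 : ℕ, ∀ (n k : ℕ) (x : Fin n → ℝ), n0 ≤ n →
  (1 / 3 : ℝ) * n ≤ k → (k : ℝ) ≤ (1 / 2 - ε) * n → (∀ i, x i ≠ 0) →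
  p0 ≤ (univ.filter (fun i => 0 < x i)).card → p0 ≤ (univ.filter (fun i => x i < 0)).card →
  zer x k ≤ 2 * (n - 2).choose (k - 1)

open Classical in
/-- part C (helper77) -/
def PC_stmt : Prop := ∀ ε : ℝ, 0 < ε → ∃ n0 : ℕ, ∀ (n k : ℕ) (x : Fin n → ℝ), n0 ≤ n →
  (n : ℝ) / 3 ≤ k → (k : ℝ) ≤ (1 / 2 - ε) * n → (∀ i, x i ≠ 0) →
  (univ.filter (fun i => 0 < x i)).card ≤ 2 → zer x k ≤ 2 * (n - 2).choose (k - 1)

open Classical in
/-- BZ. Part B for `zer`. Let `P = {i | 0 < x i}` with `p` elements, `q = n - p` (all other `x i < 0`); bijections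
`f : Fin p ≃ P`, `g : Fin q ≃ Pᶜ` (`Finset.equivFin`, `Fintype.equivFin`), `X = x ∘ f`, `y = - x ∘ g`. The map
`s |-> (f⁻¹ (s ∩ P), g⁻¹ (s \ P))` is injective on the sets counted by `zer x k` and goes into `ZS X y k`: zero sum
means `X (I) = y (J)`, `|I| + |J| = |s| <= k`, and `I` is nonempty (otherwise the sum of `s` is negative, as `s` is
nonempty). `(p : R) + q = n`, `1/3 + ε <= k/n` from `(1/3+ε) n <= k` (`n > 0`: take `n0 >= 1`). -/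
def BZ_stmt : Prop := ∀ (ε : ℝ) (p : ℕ), 0 < ε → 3 ≤ p → ∃ n0 : ℕ, ∀ (n k : ℕ) (x : Fin n → ℝ), n0 ≤ n →
  (1 / 3 + ε) * n ≤ k → (k : ℝ) ≤ (1 / 2 - ε) * n → (∀ i, x i ≠ 0) →
  (univ.filter (fun i => 0 < x i)).card = p → zer x k ≤ 2 * (n - 2).choose (k - 1)

/-- SYM. The sum of `-x` over `s` is minus the sum of `x`. -/
def SYM_stmt : Prop := ∀ (n k : ℕ) (x : Fin n → ℝ), zer (fun i => - x i) k = zer x k

/-- ASM. Let `p0` be as in PA, `n0` the maximum of the `n0` of PA, PC and of BZ for `3 <= p < p0`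
(`Finset.sup` over `range p0`, choice). `a = #{0 < x}`, `b = #{x < 0}`. If `a, b >= p0`: PA. If `a < p0`: `a <= 2`: PC;
otherwise BZ. If `b < p0`: the same for `-x` with SYM. -/
def ASM_stmt : Prop := ∀ ε : ℝ, 0 < ε → ∃ n0 : ℕ, ∀ (n k : ℕ) (x : Fin n → ℝ), n0 ≤ n →
  (1 / 3 + ε) * n ≤ k → (k : ℝ) ≤ (1 / 2 - ε) * n → (∀ i, x i ≠ 0) →
  zer x k ≤ 2 * (n - 2).choose (k - 1)

/-- FLR. `2k <= n` and `n + 1 < 3k` for large `n`, so `(n+1)/k = 2`. -/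
def FLR_stmt : Prop := ∀ ε : ℝ, 0 < ε → ∃ n0 : ℕ, ∀ n k : ℕ, n0 ≤ n →
  (1 / 3 + ε) * n ≤ k → (k : ℝ) ≤ (1 / 2 - ε) * n → (n + 1) / k = 2 ∧ 2 ≤ k ∧ k ≤ n

/-- FPM. The theorem. Upper bound: UPC of helper72/UP and ASM. Lower bound: the first component of
Pool.Agent.NK.Base.uniform_result (helper55/NK/Base.lean) with `(n+1)/k = 2` (FLR); vectors of weight exactly `k >= 1`
are nonzero of weight at most `k`. The value `((n + 1) / k) * (n - (n + 1) / k).choose (k - 1)` is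
`2 * (n-2).choose (k-1)`. -/
def FPM_stmt : Prop := ∀ ε : ℝ, 0 < ε → ∃ n0 : ℕ, ∀ n k : ℕ, n0 ≤ n →
  (1 / 3 + ε) * n ≤ k → (k : ℝ) ≤ (1 / 2 - ε) * n →
    IsGreatest
      {m : ℕ | ∃ S : Finset (Fin n → ℝ),
        (∀ v ∈ S, (∀ i, v i = 0 ∨ v i = 1) ∧ v ≠ 0 ∧ (univ.filter (fun i => v i = 1)).card ≤ k) ∧
        (∀ i : Fin n,
          (Pi.single i 1 : Fin n → ℝ) ∉ Submodule.span ℝ (S : Set (Fin n → ℝ))) ∧
        S.card = m}
      (((n + 1) / k) * (n - (n + 1) / k).choose (k - 1))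

end Pool.Agent.NM
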