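import Pool.Agent.helper55.NM.Spec2
import Pool.Agent.helper55.NK.Spec

/-! Project NM, step 2: the window just above n/3 is closed.  Most rows are small changes of rows of Spec.lean /
Spec2.lean: `1/3 <= ρ` instead of `1/3 + ε <= ρ`, with `4 <= p` and `ε <= 1/12`. -/

namespace Pool.Agent.NM

open Finset Nat Pool.Agent.helper72.UP

/-- G2P. GG2 with `1/3 <= ρ`, `ε <= 1/12`; the same proof (in GG2 the hypothesis `1/3 + ε <= ρ` is only used for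
`1/3 <= ρ` and `ε <= 1/12`). -/
def G2P_stmt : Prop := ∀ (p : ℕ) (S : Finset (Fin p)) (H : Finset (Finset (Fin p)))
  (d : Finset (Fin p) → ℕ) (ε ρ R : ℝ), Hyp p S H d → 0 < ε → ε ≤ 1 / 12 → 1 / 3 ≤ ρ → ρ ≤ 1 / 2 - ε →
  0 ≤ R → R ≤ 1 - 2 * ε → 3 ≤ p → (univ \ S).card ≤ 2 →
  ∑ I ∈ H, ρ ^ I.card * (1 - ρ) ^ (p - I.card) * R ^ d I ≤ (1 - ε) * (2 * ρ * (1 - ρ))

/-- PM4. `P_b(a) = C(b,a) ρ^a (1-ρ)^(b-a) <= (8/9) 2ρ(1-ρ)` for `b >= 4`, `a >= 1`. Induction on `b` as in PMX. Base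
`b = 4`: `P(1) = 2ρ(1-ρ) 2(1-ρ)^2`, `P(2) = 2ρ(1-ρ) 3ρ(1-ρ)`, `P(3) = 2ρ(1-ρ) 2ρ^2`, `P(4) = ρ^4`. Step: for `a = 1` use
`P_b(0) = (1-ρ)^b <= (2/3)^4 <= (8/9)(4/9) <= (8/9) 2ρ(1-ρ)`. -/
def PM4_stmt : Prop := ∀ (b a : ℕ) (ρ : ℝ), 4 ≤ b → 1 ≤ a → a ≤ b → 1 / 3 ≤ ρ → ρ ≤ 1 / 2 →
  (b.choose a : ℝ) * (ρ ^ a * (1 - ρ) ^ (b - a)) ≤ 8 / 9 * (2 * ρ * (1 - ρ))

/-- LY4. As LYB, with PM4. -/
def LY4_stmt : Prop := ∀ (α : Type) [Fintype α] [DecidableEq α] (𝒜 : Finset (Finset α)) (ρ : ℝ),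
  IsAntichain (· ⊆ ·) (𝒜 : Set (Finset α)) → (∀ A ∈ 𝒜, A.Nonempty) → 4 ≤ Fintype.card α →
  1 / 3 ≤ ρ → ρ ≤ 1 / 2 →
  ∑ A ∈ 𝒜, ρ ^ A.card * (1 - ρ) ^ (Fintype.card α - A.card) ≤ 8 / 9 * (2 * ρ * (1 - ρ))

/-- GG4. At least four big elements: the proof of GG3 with LY4 (`8/9 <= 1 - ε`). -/
def GG4_stmt : Prop := ∀ (p : ℕ) (S : Finset (Fin p)) (H : Finset (Finset (Fin p)))
  (d : Finset (Fin p) → ℕ) (ε ρ R : ℝ), Hyp p S H d → 0 < ε → ε ≤ 1 / 12 → 1 / 3 ≤ ρ → ρ ≤ 1 / 2 - ε →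
  0 ≤ R → R ≤ 1 - 2 * ε → 4 ≤ (univ \ S).card →
  ∑ I ∈ H, ρ ^ I.card * (1 - ρ) ^ (p - I.card) * R ^ d I ≤ (1 - ε) * (2 * ρ * (1 - ρ))

/-- AC3. Antichains of nonempty subsets of a set with three elements. Either it is the family of the three
one-element sets, or its measure is at most `max (2ρ(1-ρ)^2) (ρ(1-ρ)) (3ρ^2(1-ρ))`. Enumeration: the full set
alone: `ρ^3`; at least two pairs: then no singletons (a singleton outside both pairs does not exist), `<= 3ρ^2(1-ρ)`;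
one pair `{a,b}`: at most the singleton `{c}`: `<= ρ^2(1-ρ) + ρ(1-ρ)^2 = ρ(1-ρ)`; no pair: singletons only: all
three, or at most two: `2ρ(1-ρ)^2`. (For `α = Fin 3` one can enumerate by `decide`; transfer by an equivalence.) -/
def AC3_stmt : Prop := ∀ (α : Type) [Fintype α] [DecidableEq α] (𝒜 : Finset (Finset α)) (ρ : ℝ),
  IsAntichain (· ⊆ ·) (𝒜 : Set (Finset α)) → (∀ A ∈ 𝒜, A.Nonempty) → Fintype.card α = 3 →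
  1 / 3 ≤ ρ → ρ ≤ 1 / 2 →
  𝒜 = univ.filter (fun A : Finset α => A.card = 1) ∨
    ∑ A ∈ 𝒜, ρ ^ A.card * (1 - ρ) ^ (3 - A.card) ≤
      max (2 * ρ * (1 - ρ) ^ 2) (max (ρ * (1 - ρ)) (3 * ρ ^ 2 * (1 - ρ)))

/-- G3P. Exactly three big elements and at least one small one, `e`. Notation of GG2: for `T ⊆ S \ {e}` let
`A0 = {B : T ∪ B ∈ H}`, `A1 = {B : T ∪ {e} ∪ B ∈ H}` (`B` = big parts, nonempty), both antichains; it is enough that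
`f = (1-ρ) sum_{A0} μ(B) R^d + ρ sum_{A1} μ(B) R^d <= (1-ε) 2ρ(1-ρ)`. Let `m = 3ρ(1-ρ)^2 = 2ρ(1-ρ) 1.5(1-ρ) <= 2ρ(1-ρ)`.
Both `A0` and `A1` are the three singletons: then `d >= 2` on `A0` by (iii), so
`f <= ((1-ρ)R^2 + ρ) m <= (1 - 1.5 ε) m`. Otherwise by AC3 one of them has measure `<= M0 =
max (2ρ(1-ρ)^2) (ρ(1-ρ)) (3ρ^2(1-ρ))` and the other one `<= m` (also by AC3, `M0 <= m`), so
`f <= max ((1-ρ) m + ρ M0) ((1-ρ) M0 + ρ m)`, and since `1-ρ >= ρ` and `m >= M0` this is `(1-ρ) m + ρ M0`. Divide by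
`2ρ(1-ρ)`: `1.5(1-ρ)^2 + ρ max(1-ρ, 1/2, 1.5ρ) <= 8/9`: `1.5(1-ρ)^2 + ρ(1-ρ) = (1-ρ)(1.5-0.5ρ) <= 8/9`,
`1.5(1-ρ)^2 + ρ/2 <= 5/6`, `1.5((1-ρ)^2+ρ^2) <= 5/6` on `[1/3,1/2]`. And `8/9 <= 1 - ε`. -/
def G3P_stmt : Prop := ∀ (p : ℕ) (S : Finset (Fin p)) (H : Finset (Finset (Fin p)))
  (d : Finset (Fin p) → ℕ) (ε ρ R : ℝ), Hyp p S H d → 0 < ε → ε ≤ 1 / 12 → 1 / 3 ≤ ρ → ρ ≤ 1 / 2 - ε →
  0 ≤ R → R ≤ 1 - 2 * ε → 4 ≤ p → (univ \ S).card = 3 →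
  ∑ I ∈ H, ρ ^ I.card * (1 - ρ) ^ (p - I.card) * R ^ d I ≤ (1 - ε) * (2 * ρ * (1 - ρ))

/-- PTP. PTB for `4 <= p`, `1/3 <= ρ`, `ε <= 1/12`: the same proof with G2P, G3P, GG4. -/
def PTP_stmt : Prop := ∀ (p q k L : ℕ) (X : Fin p → ℝ) (y : Fin q → ℝ) (ε : ℝ)
  (τ : Equiv.Perm (Fin q)), (∀ i, 0 < X i) → (∀ i, 0 < y i) → 4 ≤ p → 0 < ε → ε ≤ 1 / 12 → p + L ≤ k →
  k ≤ q → p ^ 2 < p + q → 1 / 3 ≤ (k : ℝ) / ((p : ℝ) + q) → (k : ℝ) / ((p : ℝ) + q) ≤ 1 / 2 - ε →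
  (k : ℝ) ≤ (1 - 2 * ε) * ((q : ℝ) - k) →
  ¬ (Yp y τ k ≤ ((p + 1 : ℕ) : ℝ) * (Yp y τ k - Yp y τ (k - (p + L)))) →
  (1 - (p : ℝ) ^ 2 / ((p : ℝ) + q)) * (Wt X y k τ : ℝ) ≤
    ((1 - ε) * (2 * ((k : ℝ) / ((p : ℝ) + q)) * (1 - (k : ℝ) / ((p : ℝ) + q))) + (1 - 2 * ε) ^ L) *
      ((p + q).choose k : ℝ)

/-- ASP. ASY with `1/3 <= ρ` and `ε <= 1/12`: the same proof (`2ρ(1-ρ) >= 4/9`). -/
def ASP_stmt : Prop := ∀ (ε : ℝ) (p : ℕ), 0 < ε → ε ≤ 1 / 12 → ∃ L n0 : ℕ, ∀ q k : ℕ, n0 ≤ p + q →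
  1 / 3 ≤ (k : ℝ) / ((p : ℝ) + q) → (k : ℝ) / ((p : ℝ) + q) ≤ 1 / 2 - ε →
  p + L ≤ k ∧ 1 ≤ k ∧ 2 * k ≤ q ∧ p ^ 2 < p + q ∧ (k : ℝ) ≤ (1 - 2 * ε) * ((q : ℝ) - k) ∧
  (((1 - ε) * (2 * ((k : ℝ) / ((p : ℝ) + q)) * (1 - (k : ℝ) / ((p : ℝ) + q))) + (1 - 2 * ε) ^ L) /
      (1 - (p : ℝ) ^ 2 / ((p : ℝ) + q))) * ((p + q).choose k : ℝ) +
    ((p + 1 : ℕ) : ℝ) * (p + L : ℕ) / k * (2 ^ p * (q.choose k : ℝ)) ≤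
    2 * ((p + q - 2).choose (k - 1) : ℝ)

/-- BBP. BB for `4 <= p`, `1/3 <= ρ`, `ε <= 1/12`: the same proof with PTP, ASP. -/
def BBP_stmt : Prop := ∀ (ε : ℝ) (p : ℕ), 0 < ε → ε ≤ 1 / 12 → 4 ≤ p → ∃ n0 : ℕ, ∀ q k : ℕ, n0 ≤ p + q →
  1 / 3 ≤ (k : ℝ) / ((p : ℝ) + q) → (k : ℝ) / ((p : ℝ) + q) ≤ 1 / 2 - ε →
  ∀ (X : Fin p → ℝ) (y : Fin q → ℝ), (∀ i, 0 < X i) → (∀ i, 0 < y i) →
  (ZS X y k).card ≤ 2 * (p + q - 2).choose (k - 1)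

open Classical in
/-- BZP. BZ for BBP: the same proof. -/
def BZP_stmt : Prop := ∀ (ε : ℝ) (p : ℕ), 0 < ε → ε ≤ 1 / 12 → 4 ≤ p → ∃ n0 : ℕ,
  ∀ (n k : ℕ) (x : Fin n → ℝ), n0 ≤ n →
  (n : ℝ) / 3 ≤ k → (k : ℝ) ≤ (1 / 2 - ε) * n → (∀ i, x i ≠ 0) →
  (univ.filter (fun i => 0 < x i)).card = p → zer x k ≤ 2 * (n - 2).choose (k - 1)

open Classical in
/-- PRA. The weighted permutation argument for the true numbers of positive and negative elements: the proof of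
`PER` (Pool/Agent/helper4/NK/PER.lean, statement `Pool.Agent.NK.PER_stmt`), where the hypothesis is used only for
`a = #{0 < x}`, `b = #{x < 0}`, applied to the family of the sets counted by `zer x k`. -/
def PRA_stmt : Prop := ∀ (n k V : ℕ) (x : Fin n → ℝ), (∀ i, x i ≠ 0) →
  (∀ C : Finset (ℕ × ℕ), (∀ c ∈ C, 1 ≤ c.1 ∧ 1 ≤ c.2 ∧ c.1 + c.2 ≤ k) → Pool.Agent.NK.IsCh C →
    ∑ c ∈ C, (univ.filter (fun i => 0 < x i)).card.choose c.1 *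
      (univ.filter (fun i => x i < 0)).card.choose c.2 ≤ V) → zer x k ≤ V

open Classical in
/-- TR3. Three positive elements, `n + 1 <= 3k`, `k <= 0.37 n`; `q = n - 3`. By PRA it is enough that every strict
chain has sum `<= 2 C(n-2,k-1)`. Elements of a chain with `C(3,c.1) ≠ 0` are `(1,j1), (2,j2), (3,j3)`, `j1 < j2 < j3`,
`j_i <= k - i`. `C(q,.)` is increasing up to `k - 1 <= q/2`; `C(q,k-2) <= 0.5873.. C(q,k-1)` and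
`C(q,k-3) <= 0.5873.. C(q,k-2)` (ratios `(k-1)/(n-k-1)`, `(k-2)/(n-k)`, at most `k/(n-k) <= 37/63`). With `(3,j3)`:
`<= 7 C(q,k-3) <= 7 (37/63)^2 C(q,k-1) <= 3 C(q,k-1)`. Without it, with `(2,j2)`: `<= 3 (C(q,k-2) + C(q,k-3)) <= 3 C(q,k-1)`
as `37/63 + (37/63)^2 <= 1`. Only `(1,j1)`: `3 C(q,j1) <= 3 C(q,k-1)`. Finally `3 C(n-3,k-1) <= 2 C(n-2,k-1)`, since
`C(n-2,k-1) (n-1-k) = C(n-3,k-1) (n-2)` and `3 (n-1-k) <= 2 (n-2)`. -/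
def TR3_stmt : Prop := ∀ (n k : ℕ) (x : Fin n → ℝ), n + 1 ≤ 3 * k → 100 * k ≤ 37 * n → (∀ i, x i ≠ 0) →
  (univ.filter (fun i => 0 < x i)).card = 3 → zer x k ≤ 2 * (n - 2).choose (k - 1)

/-- ASP2 (name ASZ). As ASM: WLOG `ε <= 1/100` (replace `ε` by the minimum). `a = #{0 < x}`, `b = #{x < 0}`, `p0` from PA.
`a, b >= p0`: PA. `a < p0`: `a <= 2`: PC; `a = 3`: TR3 if `100 k <= 37 n`, otherwise BZ with `ε` and `p = 3`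
(`(1/3 + ε) n <= 0.37 n <= k`); `4 <= a < p0`: BZP. `b < p0`: the same for `-x` with SYM. -/
def ASZ_stmt : Prop := ∀ ε : ℝ, 0 < ε → ∃ n0 : ℕ, ∀ (n k : ℕ) (x : Fin n → ℝ), n0 ≤ n →
  n + 1 ≤ 3 * k → (k : ℝ) ≤ (1 / 2 - ε) * n → (∀ i, x i ≠ 0) →
  zer x k ≤ 2 * (n - 2).choose (k - 1)

/-- FPZ. The theorem for `n + 1 <= 3k`. As FPM. The value: `M(n,k) = ((n+1)/k) C(n - (n+1)/k, k-1)`; for `n + 2 <= 3k`,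
`2k <= n` it is `2 C(n-2,k-1)`; for `n + 1 = 3k` it is `3 C(n-3,k-1) = 2 C(n-2,k-1)` (see TR3). The upper bound is
ASZ + UPC; the lower bound is the first component of Pool.Agent.NK.Base.uniform_result. -/
def FPZ_stmt : Prop := ∀ ε : ℝ, 0 < ε → ∃ n0 : ℕ, ∀ n k : ℕ, n0 ≤ n →
  n + 1 ≤ 3 * k → (k : ℝ) ≤ (1 / 2 - ε) * n →
    IsGreatest
      {m : ℕ | ∃ S : Finset (Fin n → ℝ),
        (∀ v ∈ S, (∀ i, v i = 0 ∨ v i = 1) ∧ v ≠ 0 ∧ (univ.filter (fun i => v i = 1)).card ≤ k) ∧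
        (∀ i : Fin n,
          (Pi.single i 1 : Fin n → ℝ) ∉ Submodule.span ℝ (S : Set (Fin n → ℝ))) ∧
        S.card = m}
      (((n + 1) / k) * (n - (n + 1) / k).choose (k - 1))

end Pool.Agent.NM
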